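import Pool.Agent.H97.LAY.FinB

/-!
# Layered permutations whose optimal permutations have a bounded number of layers
(MP_609328_co)
-/

set_option autoImplicit false

namespace Pool.Agent.Results.MP_609328_co.BoundedLayers

open Finset

/-- the number of occurrences of `σ` in `π`: the increasing maps `e` of `[m]` into `[n]` (that is, the
`m`-element subsets of `[n]`) such that the points `e 0 < e 1 < ...` of `π` induce `σ` -/
noncomputable def occ {m n : ℕ} (σ : Equiv.Perm (Fin m)) (π : Equiv.Perm (Fin n)) : ℕ :=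
  Nat.card {e : Fin m ↪o Fin n // ∀ a b : Fin m, σ a < σ b ↔ π (e a) < π (e b)}

/-- the density `d(σ, π)` -/
noncomputable def density {m n : ℕ} (σ : Equiv.Perm (Fin m)) (π : Equiv.Perm (Fin n)) : ℝ :=
  (occ σ π : ℝ) / (n.choose m : ℝ)

/-- `π` is `σ`-optimal -/
def Optimal {m n : ℕ} (σ : Equiv.Perm (Fin m)) (π : Equiv.Perm (Fin n)) : Prop :=
  m ≤ n ∧ ∀ π' : Equiv.Perm (Fin n), density σ π' ≤ density σ π

/-- `b` (the number of the layer of a position) splits `[n]` into the `k` consecutive nonempty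
intervals `b⁻¹ 0, b⁻¹ 1, ...`; `π` is decreasing on each of them, and every value on an interval is
smaller than every value on a later one -/
def IsLayering {n k : ℕ} (π : Equiv.Perm (Fin n)) (b : Fin n → Fin k) : Prop :=
  Function.Surjective b ∧ Monotone b ∧
  (∀ i j : Fin n, i < j → b i = b j → π j < π i) ∧ (∀ i j : Fin n, b i < b j → π i < π j)

/-- `π` is layered with `k` layers -/
def HasLayers {n : ℕ} (π : Equiv.Perm (Fin n)) (k : ℕ) : Prop :=
  ∃ b : Fin n → Fin k, IsLayering π b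

/-- the size of the layer `j` -/
def layerSize {n k : ℕ} (b : Fin n → Fin k) (j : Fin k) : ℕ :=
  (Finset.univ.filter (fun i => b i = j)).card

/-- condition (ii) of Q1: for each `k` there is `n ≥ |σ|` for which all layered `σ`-optimal
permutations of order `n` have `k` or more layers -/
def CondII {s : ℕ} (σ : Equiv.Perm (Fin s)) : Prop :=
  ∀ k : ℕ, ∃ n ≥ s, ∀ π : Equiv.Perm (Fin n), Optimal σ π → ∀ j : ℕ, HasLayers π j → k ≤ j

/-- the condition on the sizes `ℓ 0, ..., ℓ (k-1)` of the layers of `σ`: there is at least one layer;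
the first and the last layer have size at least 2; if `i, j, l` are consecutive layers and the size
of `j` is one, then `ℓ i, ℓ l ≥ 2`, and if `ℓ i < ℓ l` then there is a layer `m` just after `l` with
`2 ≤ ℓ m ≤ ℓ i`, and if `ℓ l < ℓ i` then there is a layer `m` just before `i` with
`2 ≤ ℓ m ≤ ℓ l`. -/
def SizeCondition {k : ℕ} (ℓ : Fin k → ℕ) : Prop :=
  0 < k ∧ (∀ j : Fin k, ((j : ℕ) = 0 ∨ (j : ℕ) + 1 = k) → 2 ≤ ℓ j) ∧
  (∀ i j l : Fin k, (i : ℕ) + 1 = j → (j : ℕ) + 1 = l → ℓ j = 1 →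
    2 ≤ ℓ i ∧ 2 ≤ ℓ l ∧
    (ℓ i < ℓ l → ∃ m : Fin k, (l : ℕ) + 1 = m ∧ 2 ≤ ℓ m ∧ ℓ m ≤ ℓ i) ∧
    (ℓ l < ℓ i → ∃ m : Fin k, (m : ℕ) + 1 = i ∧ 2 ≤ ℓ m ∧ ℓ m ≤ ℓ l))

/-- Under `SizeCondition` all `σ`-optimal layered permutations have at most `K` layers, `K` depending
only on `σ`, and (ii) of Q1 fails. -/
theorem result {s k : ℕ} (σ : Equiv.Perm (Fin s)) (b : Fin s → Fin k) (hb : IsLayering σ b)
    (h : SizeCondition (layerSize b)) :
    (∃ K : ℕ, ∀ (n : ℕ) (π : Equiv.Perm (Fin n)), Optimal σ π → ∀ j : ℕ, HasLayers π j → j ≤ K) ∧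
      ¬ CondII σ :=
  Pool.LAY.H1' σ b hb h.1 h.2.1 h.2.2

end Pool.Agent.Results.MP_609328_co.BoundedLayers
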