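import Pool.Agent.H97.LAY.FinL

/-!
# Layered permutations with several large layers before a layer of size one
(MP_609328_co)
-/

set_option autoImplicit false

namespace Pool.Agent.Results.MP_609328_co.LargeLayersFirst

open Finset

/-- the number of occurrences of `σ` in `π`: the increasing maps `e` of `[m]` into `[n]` (that is, the
`m`-element subsets of `[n]`) such that the points `e 0 < e 1 < ...` of `π` induce `σ` -/
noncomputable def occ {m n : ℕ} (σ : Equiv.Perm (Fin m)) (π : Equiv.Perm (Fin n)) : ℕ :=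
  Nat.card {e : Fin m ↪o Fin n // ∀ a b : Fin m, σ a < σ b ↔ π (e a) < π (e b)}

/-- the density `d(σ, π)` -/
noncomputable def density {m n : ℕ} (σ : Equiv.Perm (Fin m)) (π : Equiv.Perm (Fin n)) : ℝ :=
  (occ σ π : ℝ) / (n.choose m : ℝ)

/-- `π` is `σ`-optimal -/
def Optimal {m n : ℕ} (σ : Equiv.Perm (Fin m)) (π : Equiv.Perm (Fin n)) : Prop :=
  m ≤ n ∧ ∀ π' : Equiv.Perm (Fin n), density σ π' ≤ density σ π

/-- `b` (the number of the layer of a position) splits `[n]` into the `k` consecutive nonempty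
intervals `b⁻¹ 0, b⁻¹ 1, ...`; `π` is decreasing on each of them, and every value on an interval is
smaller than every value on a later one -/
def IsLayering {n k : ℕ} (π : Equiv.Perm (Fin n)) (b : Fin n → Fin k) : Prop :=
  Function.Surjective b ∧ Monotone b ∧
  (∀ i j : Fin n, i < j → b i = b j → π j < π i) ∧ (∀ i j : Fin n, b i < b j → π i < π j)

/-- `π` is layered with `k` layers -/
def HasLayers {n : ℕ} (π : Equiv.Perm (Fin n)) (k : ℕ) : Prop :=
  ∃ b : Fin n → Fin k, IsLayering π b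

/-- the size of the layer `j` -/
def layerSize {n k : ℕ} (b : Fin n → Fin k) (j : Fin k) : ℕ :=
  (Finset.univ.filter (fun i => b i = j)).card

/-- `σ` has the layers `0, ..., k-1`, of sizes `ℓ 0, ..., ℓ (k-1)`. The layer `q` has size one; on one
side of it there are `p ≥ 1` layers (`p = q` or `p = k - 1 - q`), all of them of a size `ℓ i` with
`p * 2 ^ (2 ℓ r + 6) ≤ 2 ^ ℓ i`, where `r` is the neighbour of `q` on the other side. -/
def LargeBefore {k : ℕ} (ℓ : Fin k → ℕ) : Prop :=
  ∃ q r : Fin k, ℓ q = 1 ∧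
    ((1 ≤ (q : ℕ) ∧ (r : ℕ) = q + 1 ∧
        ∀ i : Fin k, i < q → (q : ℕ) * 2 ^ (2 * ℓ r + 6) ≤ 2 ^ ℓ i) ∨
      ((q : ℕ) + 2 ≤ k ∧ (r : ℕ) + 1 = q ∧
        ∀ i : Fin k, q < i → (k - 1 - q) * 2 ^ (2 * ℓ r + 6) ≤ 2 ^ ℓ i))

/-- Under `LargeBefore`, for every `m` only finitely many orders `n` have a `σ`-optimal layered
permutation with at most `m` layers. -/
theorem result {s k : ℕ} (σ : Equiv.Perm (Fin s)) (b : Fin s → Fin k) (hb : IsLayering σ b)
    (h : LargeBefore (layerSize b)) (m : ℕ) :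
    {n : ℕ | ∃ π : Equiv.Perm (Fin n), Optimal σ π ∧ ∃ j ≤ m, HasLayers π j}.Finite :=
  Pool.LAY.H3' σ b hb h m

end Pool.Agent.Results.MP_609328_co.LargeLayersFirst
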